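import Mathlib
import Pool.Graph.R_seed8.R695.TR.Main

/-!
# MP_0ae2e1_co: triangle Ramsey graphs with few triangles on each edge, for all graphs

Every graph, finite or infinite and of any cardinality, in which each edge lies in at most three
triangles has a 2-colouring of its edges without monochromatic triangle.
-/

set_option autoImplicit false

universe u

namespace Pool.Agent.Results.MP_0ae2e1_co.AllGraphs

open Pool.Agent.R695.TR

/-- `t(xy)`: the number of triangles of `G` containing both `x` and `y`, as an element of `ℕ∞`. -/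
noncomputable def numTriangles {V : Type u} (G : SimpleGraph V) (x y : V) : ℕ∞ :=
  {T : Finset V | G.IsNClique 3 T ∧ x ∈ T ∧ y ∈ T}.encard

/-- `G → (K₃)²`: for every colouring of the edges of `G` with two colours there is a triangle
whose three edges all receive the same colour. -/
def Arrows {V : Type u} (G : SimpleGraph V) : Prop :=
  ∀ c : G.edgeSet → Bool, ∃ T : Finset V, G.IsNClique 3 T ∧
    ∃ b : Bool, ∀ e : G.edgeSet, (∀ x ∈ e.1, x ∈ T) → c e = b

/-- The triangles on an edge are counted by the common neighbours. -/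
theorem common_le {V : Type u} (G : SimpleGraph V) {x y : V} (hxy : G.Adj x y) :
    {z | G.Adj x z ∧ G.Adj y z}.encard ≤ numTriangles G x y := by
  classical
  refine Set.encard_le_encard_of_injOn (f := fun z => ({x, y, z} : Finset V)) ?_ ?_
  · rintro z ⟨h1, h2⟩
    refine ⟨?_, by simp, by simp⟩
    rw [SimpleGraph.is3Clique_triple_iff]
    exact ⟨hxy, h1, h2⟩
  · rintro z ⟨h1, h2⟩ w ⟨h3, h4⟩ hzw
    have hz : z ∈ ({x, y, w} : Finset V) := by
      have hzw2 : ({x, y, z} : Finset V) = {x, y, w} := hzw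
      rw [← hzw2]; simp
    simp only [Finset.mem_insert, Finset.mem_singleton] at hz
    rcases hz with hz | hz | hz
    · exact absurd hz h1.ne.symm
    · exact absurd hz h2.ne.symm
    · exact hz

/-- A good colouring on each finite set of vertices. -/
theorem finite_part {V : Type u} (G : SimpleGraph V)
    (h : ∀ x y, G.Adj x y → {z | G.Adj x z ∧ G.Adj y z}.encard ≤ 3) (S : Finset V) :
    ∃ c : Sym2 V → Bool, ∀ x y z, x ∈ S → y ∈ S → z ∈ S → G.Adj x y → G.Adj y z → G.Adj x z →
      ¬ (c s(x, y) = c s(y, z) ∧ c s(y, z) = c s(x, z)) := by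
  classical
  let e := S.equivFin
  -- the induced graph on `S`, moved to `Fin`
  let H : SimpleGraph (Fin S.card) :=
    { Adj := fun a b => G.Adj (e.symm a : V) (e.symm b)
      symm := ⟨fun a b h => G.adj_symm h⟩
      loopless := ⟨fun a h => G.irrefl h⟩ }
  obtain ⟨c, hc⟩ := FIN_ok (Fin S.card) H (by
    intro x y hxy
    have h1 := h _ _ (show G.Adj (e.symm x : V) (e.symm y) from hxy)
    have h2 : {z | H.Adj x z ∧ H.Adj y z}.encard ≤
        {z | G.Adj (e.symm x : V) z ∧ G.Adj (e.symm y : V) z}.encard := by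
      refine Set.encard_le_encard_of_injOn (f := fun z => (e.symm z : V)) ?_ ?_
      · rintro z ⟨h1, h2⟩
        exact ⟨h1, h2⟩
      · intro a _ b _ hab
        exact e.symm.injective (Subtype.ext hab)
    have h3 := h2.trans h1
    rw [← (Set.toFinite _).cast_ncard_eq] at h3
    exact_mod_cast h3)
  rcases S.eq_empty_or_nonempty with hS | ⟨s₀, hs₀⟩
  · exact ⟨fun _ => true, fun x y z hx => absurd hx (by rw [hS]; simp)⟩
  let f : V → Fin S.card := fun x => if hx : x ∈ S then e ⟨x, hx⟩ else e ⟨s₀, hs₀⟩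
  have hf : ∀ x (hx : x ∈ S), f x = e ⟨x, hx⟩ := fun x hx => dif_pos hx
  refine ⟨fun p => c (p.map f), fun x y z hx hy hz h1 h2 h3 => ?_⟩
  simp only [Sym2.map_mk, hf x hx, hf y hy, hf z hz]
  exact hc _ _ _ (by show G.Adj _ _; simpa using h1) (by show G.Adj _ _; simpa using h2)
    (by show G.Adj _ _; simpa using h3)

/-- A good colouring of an arbitrary graph. -/
theorem colouring {V : Type u} (G : SimpleGraph V)
    (h : ∀ x y, G.Adj x y → {z | G.Adj x z ∧ G.Adj y z}.encard ≤ 3) :
    ∃ c : Sym2 V → Bool, ∀ x y z, G.Adj x y → G.Adj y z → G.Adj x z →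
      ¬ (c s(x, y) = c s(y, z) ∧ c s(y, z) = c s(x, z)) := by
  classical
  choose cS hcS using finite_part G h
  let U : Ultrafilter (Finset V) := Ultrafilter.of Filter.atTop
  have hU : (U : Filter (Finset V)) ≤ Filter.atTop := Ultrafilter.of_le _
  have hc : ∀ e : Sym2 V, ∃ b : Bool, ∀ᶠ S in (U : Filter (Finset V)), cS S e = b := by
    intro e
    by_cases h : ∀ᶠ S in (U : Filter (Finset V)), cS S e = true
    · exact ⟨true, h⟩
    · rw [← Ultrafilter.eventually_not] at h
      exact ⟨false, h.mono fun S hS => by simpa using hS⟩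
  choose c hc using hc
  refine ⟨c, fun x y z h1 h2 h3 => ?_⟩
  have hin : ∀ v : V, ∀ᶠ S in (U : Filter (Finset V)), v ∈ S := fun v =>
    hU (Filter.eventually_ge_atTop ({v} : Finset V) |>.mono fun S hS => by simpa using hS)
  obtain ⟨S, hx, hy, hz, e1, e2, e3⟩ := ((hin x).and ((hin y).and ((hin z).and
    ((hc s(x, y)).and ((hc s(y, z)).and (hc s(x, z))))))).exists
  rw [← e1, ← e2, ← e3]
  exact hcS S x y z hx hy hz h1 h2 h3

/-- **No, for all graphs.** For a graph `G` of any cardinality, finite or infinite, with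
`t(e) ≤ 3` for every edge `e`, the edges have a 2-colouring without monochromatic triangle. -/
theorem result {V : Type u} (G : SimpleGraph V)
    (h : ∀ x y, G.Adj x y → numTriangles G x y ≤ 3) : ¬ Arrows G := by
  classical
  obtain ⟨c, hc⟩ := colouring G fun x y hxy => (common_le G hxy).trans (h x y hxy)
  intro hA
  obtain ⟨T, hT, b, hb⟩ := hA (fun e => c e.1)
  rw [SimpleGraph.is3Clique_iff] at hT
  obtain ⟨x, y, z, hxy, hxz, hyz, rfl⟩ := hT
  refine hc x y z hxy hyz hxz ⟨?_, ?_⟩
  · rw [hb ⟨s(x, y), hxy⟩ (by simp), hb ⟨s(y, z), hyz⟩ (by simp)]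
  · rw [hb ⟨s(y, z), hyz⟩ (by simp), hb ⟨s(x, z), hxz⟩ (by simp)]

end Pool.Agent.Results.MP_0ae2e1_co.AllGraphs
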